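import Pool.Agent.P.MP_7f9919_an.C12.All

set_option autoImplicit false

namespace Pool.Agent.Results.MP_7f9919_an.AllThreePairs

open Pool.Agent.P.MP_7f9919_an

/-- The number of C*-norms on the algebraic tensor product is `2 ^ 2 ^ ℵ₀` for the pairs
(a) `B(H), B(H)` and (c) `B(H), Q(H)`, and it is `2 ^ ℵ₀` for the pair (b) of two copies of the
full group C*-algebra of the free group on countably many generators. The Calkin algebra and the
full group C*-algebra are given by their defining properties, and they exist. -/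
theorem result :
    (∀ (H : Type) [NormedAddCommGroup H] [InnerProductSpace ℂ H] [CompleteSpace H]
      [TopologicalSpace.SeparableSpace H], ¬ FiniteDimensional ℂ H →
        numNorms (H →L[ℂ] H) (H →L[ℂ] H) = 2 ^ (2 ^ Cardinal.aleph0 : Cardinal) ∧
        (∃ (Q : Type) (_ : Ring Q) (_ : StarRing Q) (_ : Algebra ℂ Q) (_ : StarModule ℂ Q),
          IsCalkin H Q) ∧
        ∀ (Q : Type) [Ring Q] [StarRing Q] [Algebra ℂ Q] [StarModule ℂ Q], IsCalkin H Q →
          numNorms (H →L[ℂ] H) Q = 2 ^ (2 ^ Cardinal.aleph0 : Cardinal)) ∧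
    (∃ (A : Type) (_ : CStarAlgebra A) (ι : FreeGroup ℕ → A), IsFullCStar ι) ∧
    ∀ (A : Type) [CStarAlgebra A] (ι : FreeGroup ℕ → A), IsFullCStar ι →
      numNorms A A = 2 ^ Cardinal.aleph0 :=
  ⟨fun H _ _ _ _ hH => ⟨case_a H hH, C12.exists_calkin H, fun Q _ _ _ _ => C12.num_c H hH Q⟩,
    C12.exists_full, C12.num_b⟩

end Pool.Agent.Results.MP_7f9919_an.AllThreePairs
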